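import Pool.Agent.Run7.h763.RT.PACKa

/-!
# Project RT (helper987), piece PACK
-/

set_option autoImplicit false

open Set

noncomputable section

namespace Pool.Agent.Run7.h763.RT

open Pool.Agent.Run7.h987.BL Pool.Agent.Run7.h987.RT

universe u

variable {k : ℕ}

/-- the exported numbers -/
def ee {X : Type u} [AddAction (Zk k) X] {D : ℕ} (c1 : Zk k → ℕ) (c2 : Zk k × Fin D → ℕ)
    (J : Finset (Zk k)) (om : X → Zk k → Zk k → ℝ) (β : X → Zk k → ℝ) (θ : X → Fin D → ℝ) (x : X)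
    (m z : Zk k) : ℝ :=
  ∑ p ∈ J ×ˢ (Finset.univ : Finset (Fin D)), ((c1 z : ℝ) + c2 p + 1)⁻¹ *
    (om x m p.1 * β x (m + p.1) * θ ((m + p.1) +ᵥ x) p.2)

/-- the coefficients -/
lemma ee_coef {X : Type u} [TopologicalSpace X] [AddAction (Zk k) X] {D : ℕ} (c1 : Zk k → ℕ)
    (c2 : Zk k × Fin D → ℕ) (J : Finset (Zk k)) {om : X → Zk k → Zk k → ℝ} {β : X → Zk k → ℝ}
    {θ : X → Fin D → ℝ} (hcont : ∀ n : Zk k, Continuous fun x : X => n +ᵥ x)
    (hom : ∀ m j, Continuous fun x => om x m j) (hom1 : ∀ x m j, 0 ≤ om x m j ∧ om x m j ≤ 1)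
    (home : ∀ (q : Zk k) x m j, om (q +ᵥ x) m j = om x (m + q) j)
    (hβ : ∀ q, Continuous fun x => β x q) (hβ1 : ∀ x q, 0 ≤ β x q ∧ β x q ≤ 1)
    (hβe : ∀ (p : Zk k) x q, β (p +ᵥ x) q = β x (q + p))
    (hθ : ∀ i, Continuous fun x => θ x i) (hθ1 : ∀ x i, 0 ≤ θ x i ∧ θ x i ≤ 1) :
    Coef ((J ×ˢ (Finset.univ : Finset (Fin D))).card : ℝ)
      (fun x m z => ((ee c1 c2 J om β θ x m z : ℝ) : ℂ)) where
  cont := fun m z => by
    apply Complex.continuous_ofReal.comp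
    apply continuous_finsetSum
    intro p _
    exact continuous_const.mul (((hom m p.1).mul (hβ (m + p.1))).mul
      ((hθ p.2).comp (hcont (m + p.1))))
  bdd := fun x m z => by
    rw [Complex.norm_real, Real.norm_eq_abs]
    unfold ee
    refine (Finset.abs_sum_le_sum_abs _ _).trans ?_
    calc ∑ p ∈ J ×ˢ (Finset.univ : Finset (Fin D)), |((c1 z : ℝ) + c2 p + 1)⁻¹ *
        (om x m p.1 * β x (m + p.1) * θ ((m + p.1) +ᵥ x) p.2)|
        ≤ ∑ _p ∈ J ×ˢ (Finset.univ : Finset (Fin D)), (1 : ℝ) := by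
          apply Finset.sum_le_sum
          intro p _
          obtain ⟨a0, a1⟩ := hom1 x m p.1
          obtain ⟨b0, b1⟩ := hβ1 x (m + p.1)
          obtain ⟨t0, t1⟩ := hθ1 ((m + p.1) +ᵥ x) p.2
          have h1 : (0 : ℝ) ≤ ((c1 z : ℝ) + c2 p + 1)⁻¹ := by positivity
          have h2 : ((c1 z : ℝ) + c2 p + 1)⁻¹ ≤ 1 := by
            apply inv_le_one_of_one_le₀
            have : (0 : ℝ) ≤ (c1 z : ℝ) + c2 p := by positivity
            linarith
          rw [abs_of_nonneg (mul_nonneg h1 (mul_nonneg (mul_nonneg a0 b0) t0))]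
          exact mul_le_one₀ h2 (mul_nonneg (mul_nonneg a0 b0) t0)
            (mul_le_one₀ (mul_le_one₀ a1 b0 b1) t0 t1)
      _ = _ := by rw [Finset.sum_const, nsmul_eq_mul, mul_one]
  equi := fun q x m z => by
    congr 1
    unfold ee
    apply Finset.sum_congr rfl
    intro p _
    have e1 : m + p.1 + q = m + q + p.1 := by abel
    rw [home, hβe, vadd_vadd, e1]

theorem t_PACK (hL1 : P_LEV1.{u}) (hL2 : P_LEV2.{u}) (hI : P_INTERP.{u}) (hG : P_GEN)
    (hT : P_THETA.{u}) (hS : P_SUM2.{u}) : P_PACK.{u} := by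
  classical
  intro k N M R ε hk hN hM hε U hU hUne X _ _ _ hcont hmark
  obtain ⟨U1, U2, p, r, hU1, hU1n, hU2, hU2n, hr, hU1U, hU2U, hcU, h12, h13, h23⟩ := split hk hU hUne
  obtain ⟨D, θ, hθ, hθ1, hθi⟩ := hT X ε hε
  have hκ : (0 : ℝ) < 1 / r := by positivity
  obtain ⟨κ, hκe⟩ : ∃ κ : ℝ, κ = 1 / r := ⟨_, rfl⟩
  rw [← hκe] at hκ
  obtain ⟨R2, C, hC, hI⟩ := hI k p r κ hk hr hκ (by
    rw [hκe, one_div_one_div]
    linarith)
  -- level one
  obtain ⟨δ, hδe⟩ : ∃ δ : ℝ, δ = 1 / ((4 * κ) ^ k * (D + 1)) := ⟨_, rfl⟩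
  have hδ : 0 < δ := by rw [hδe]; positivity
  obtain ⟨S1, F1, L1, w, Q0, hS1, hS1U, hF1, hF1w, hw, hbad⟩ :=
    hL1 k N (R + 2 * (N * k)) δ hk hN hδ U1 hU1 hU1n X hcont hmark
  obtain ⟨Q, hQ0, hQ4⟩ : ∃ Q : ℕ, Q0 ≤ Q ∧ 4 * κ ≤ Q :=
    ⟨max Q0 ⌈4 * κ⌉₊, le_max_left _ _, (Nat.le_ceil _).trans (by exact_mod_cast le_max_right _ _)⟩
  obtain ⟨S2, F2, L2, om, σ, hS2, hS2U, hF2, hF2w, hσ, hom, hom1, homl, home, homc, hcnt⟩ :=
    hL2 k κ R2 Q D hk hκ hQ4 U2 hU2 hU2n X hcont hmark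
  -- the bad points
  obtain ⟨K, hK⟩ : ∃ K : ℕ, L1 + N ≤ K := ⟨⌈L1 + N⌉₊, Nat.le_ceil _⟩
  have hβpos : ∀ x q, 0 < bet w N K x q ↔ ∀ n b, inBlk N n b q → w x n b < 1 := fun x q =>
    bet_pos hN hw hK x q
  have hβ0 : ∀ x q, 0 ≤ bet w N K x q := fun x q => bet_nonneg hw.le_one x q
  -- the index set
  obtain ⟨J, hJ⟩ : ∃ J : Finset (Zk k), ∀ x m j, 0 < om x m j → j ∈ J := by
    refine ⟨Finset.Icc (fun _ => -(⌈L2⌉₊ : ℤ)) (fun _ => (⌈L2⌉₊ : ℤ)), fun x m j h => ?_⟩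
    have h1 := homl x m j h
    have key : ∀ i, |(j i : ℝ)| ≤ ⌈L2⌉₊ := fun i =>
      ((abs_le_norm (vec j : E k) i).trans h1).trans (Nat.le_ceil _)
    rw [Finset.mem_Icc]
    constructor
    · intro i
      have := (abs_le.1 (key i)).1
      exact_mod_cast this
    · intro i
      have := (abs_le.1 (key i)).2
      exact_mod_cast this
  obtain ⟨c1, hc1⟩ := Countable.exists_injective_nat (Zk k)
  obtain ⟨c2, hc2⟩ := Countable.exists_injective_nat (Zk k × Fin D)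
  have hcoef := ee_coef c1 c2 J hcont hom hom1 home (fun q => bet_cont (N := N) (K := K) hw.cont q)
    (fun x q => ⟨hβ0 x q, bet_le hw.nonneg hw.le_one x q⟩) (fun p x q => bet_equi hw.equi p x q) hθ hθ1
  obtain ⟨F3, hF3, hF3v⟩ := hI X R2 L2 _ σ _ le_rfl (by positivity) hσ hcoef
  -- the signals together
  obtain ⟨F12, hF12, hF12i⟩ := hS k X S1 S2 1 1 F1 F2 hS1 hS2 (h12.mono hS1U hS2U) hF1 hF2
  obtain ⟨F, hF, hFi⟩ := hS k X (S1 ∪ S2) (cub p r) 1 _ F12 F3 (hS1.union hS2) (isCompact_cub p r)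
    ((h13.mono_left hS1U).union_left (h23.mono_left hS2U)) hF12 hF3
  have hdet : ∀ x y, F x = F y → w x = w y := fun x y h =>
    hF1w x y (hF12i x y (hFi x y h).1).1
  refine ⟨S1 ∪ S2 ∪ cub p r, F, L1 + N * k, w, (hS1.union hS2).union (isCompact_cub p r), ?_, hF,
    ⟨wts_blk hM hw, hdet, ?_⟩⟩
  · exact union_subset (union_subset (hS1U.trans hU1U) (hS2U.trans hU2U)) hcU
  intro x y hxy hb0
  have hwxy := hdet x y hxy
  obtain ⟨homxy, hσxy⟩ := hF2w x y (hF12i x y (hFi x y hxy).1).2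
  have hF3xy := (hFi x y hxy).2
  have hβxy : ∀ q, bet w N K x q = bet w N K y q := by
    intro q
    unfold bet
    rw [hwxy]
  obtain ⟨m, hm⟩ := homc x
  -- the lattice points of weight one
  have hZfin : {z : Zk k | σ x m z = 1}.Finite := by
    refine (Finset.finite_toSet (Finset.Icc (fun _ => -(⌈L2 / κ⌉₊ : ℤ)) (fun _ => (⌈L2 / κ⌉₊ : ℤ)))).subset ?_
    intro z hz
    have hz1 : σ x m z = 1 := hz
    have h1 := hσ.loc x m z (by rw [hz1]; exact one_pos)
    rw [norm_smul, Real.norm_eq_abs, abs_of_pos hκ] at h1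
    have h2 : ‖(vec z : E k)‖ ≤ L2 / κ := by
      rw [le_div_iff₀ hκ, mul_comm]
      exact h1
    have key : ∀ i, |(z i : ℝ)| ≤ ⌈L2 / κ⌉₊ := fun i =>
      ((abs_le_norm (vec z : E k) i).trans h2).trans (Nat.le_ceil _)
    rw [Finset.mem_coe, Finset.mem_Icc]
    constructor
    · intro i
      have := (abs_le.1 (key i)).1
      exact_mod_cast this
    · intro i
      have := (abs_le.1 (key i)).2
      exact_mod_cast this
  -- the count
  have hc := hcnt x {q | ∀ n b, inBlk N n b q → w x n b < 1} (by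
    intro u s hs hsb
    have h1 := hbad Q hQ0 x u s hs hsb
    have h2 : (D : ℝ) * (δ * (Q : ℝ) ^ k) ≤ ((Q : ℝ) / (4 * κ)) ^ k := by
      rw [hδe, div_pow]
      have h3 : (0 : ℝ) < (4 * κ) ^ k := by positivity
      have h4 : (0 : ℝ) ≤ (Q : ℝ) ^ k := by positivity
      have e1 : (D : ℝ) * (1 / ((4 * κ) ^ k * (D + 1)) * (Q : ℝ) ^ k) =
          ((D : ℝ) / (D + 1)) * ((Q : ℝ) ^ k / (4 * κ) ^ k) := by
        field_simp
      rw [e1]
      apply mul_le_of_le_one_left (by positivity)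
      rw [div_le_one (by positivity)]
      linarith
    exact (mul_le_mul_of_nonneg_left h1 (by positivity)).trans h2) m
  set Jb := J.filter fun j => (∀ n b, inBlk N n b (m + j) → w x n b < 1) ∧ 0 < om x m j with hJb
  have hJbs : {j : Zk k | m + j ∈ {q | ∀ n b, inBlk N n b q → w x n b < 1} ∧ 0 < om x m j} = ↑Jb := by
    ext j
    rw [hJb, Finset.coe_filter]
    constructor
    · rintro ⟨h1, h2⟩
      exact ⟨hJ x m j h2, h1, h2⟩
    · rintro ⟨_, h1, h2⟩
      exact ⟨h1, h2⟩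
  rw [hJbs, Set.ncard_coe_finset, Set.ncard_eq_toFinset_card _ hZfin] at hc
  have hcard : (Jb ×ˢ (Finset.univ : Finset (Fin D))).card ≤ hZfin.toFinset.card := by
    rw [Finset.card_product, Finset.card_univ, Fintype.card_fin, mul_comm]
    exact hc
  have hdec := decode_aux hG hc1 hc2 hZfin.toFinset (J ×ˢ (Finset.univ : Finset (Fin D)))
    (Jb ×ˢ (Finset.univ : Finset (Fin D)))
    (fun q => om x m q.1 * bet w N K x (m + q.1) *
      (θ ((m + q.1) +ᵥ x) q.2 - θ ((m + q.1) +ᵥ y) q.2)) hcard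
    (Finset.product_subset_product (Finset.filter_subset _ _) le_rfl)
    (by
      intro q hq hqb
      rw [Finset.mem_product] at hq
      have h1 : q.1 ∉ Jb := fun h => hqb (Finset.mem_product.2 ⟨h, Finset.mem_univ _⟩)
      have h2 : om x m q.1 * bet w N K x (m + q.1) = 0 := by
        by_contra hne
        apply h1
        rw [hJb, Finset.mem_filter]
        have h3 : om x m q.1 ≠ 0 := left_ne_zero_of_mul hne
        have h4 : bet w N K x (m + q.1) ≠ 0 := right_ne_zero_of_mul hne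
        exact ⟨hq.1, (hβpos x _).1 (lt_of_le_of_ne (hβ0 x _) h4.symm),
          lt_of_le_of_ne (hom1 x m q.1).1 h3.symm⟩
      show om x m q.1 * bet w N K x (m + q.1) * _ = 0
      rw [h2, zero_mul])
    (by
      intro z hz
      have hz1 : σ x m z = 1 := by simpa using hz
      have hz2 : σ y m z = 1 := by rw [← hσxy]; exact hz1
      have h1 := hF3v x m z hz1
      have h2 := hF3v y m z hz2
      rw [hF3xy, h2] at h1
      have h3 : ee c1 c2 J om (bet w N K) θ y m z = ee c1 c2 J om (bet w N K) θ x m z := by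
        exact_mod_cast h1
      have h4 : ee c1 c2 J om (bet w N K) θ x m z - ee c1 c2 J om (bet w N K) θ y m z = 0 := by
        rw [h3, sub_self]
      rw [← h4]
      unfold ee
      rw [← Finset.sum_sub_distrib]
      apply Finset.sum_congr rfl
      intro q _
      rw [← homxy, ← hβxy]
      ring)
  apply hθi
  funext i
  have hmJ : -m ∈ J := hJ x m (-m) (by rw [hm]; exact one_pos)
  have hmb : -m ∈ Jb := by
    rw [hJb, Finset.mem_filter]
    refine ⟨hmJ, ?_, by rw [hm]; exact one_pos⟩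
    rw [add_neg_cancel]
    exact hb0
  have h1 := hdec (-m, i) (Finset.mem_product.2 ⟨hmb, Finset.mem_univ _⟩)
  have h2 : om x m (-m) * bet w N K x (m + -m) *
      (θ ((m + -m) +ᵥ x) i - θ ((m + -m) +ᵥ y) i) = 0 := h1
  rw [add_neg_cancel, zero_vadd, zero_vadd, hm, one_mul] at h2
  rcases mul_eq_zero.1 h2 with h3 | h3
  · exact absurd h3 (ne_of_gt ((hβpos x 0).2 hb0))
  · exact sub_eq_zero.1 h3

end Pool.Agent.Run7.h763.RT
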