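import Pool.Agent.Run7.h987.RT.Iface

/-!
# Project RT (helper987), piece PACK: preparations
-/

set_option autoImplicit false

open Set

noncomputable section

namespace Pool.Agent.Run7.h763.RT

open Pool.Agent.Run7.h987.BL Pool.Agent.Run7.h987.RT

universe u

variable {k : ℕ}

/-- coordinatewise floor division -/
def fl (N : ℕ) (v : Zk k) : Zk k := fun i => v i / (N : ℤ)

lemma inBlk_iff {N : ℕ} (hN : 0 < N) (n b q : Zk k) : inBlk N n b q ↔ b = fl N (q - n) := by
  have hN' : (0 : ℤ) < N := by exact_mod_cast hN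
  constructor
  · intro h
    funext i
    obtain ⟨h1, h2⟩ := h i
    show b i = (q i - n i) / (N : ℤ)
    apply le_antisymm
    · rw [Int.le_ediv_iff_mul_le hN']
      linarith [mul_comm (b i) (N : ℤ)]
    · have h3 : (q i - n i) / (N : ℤ) < b i + 1 := by
        rw [Int.ediv_lt_iff_lt_mul hN']
        have : (b i + 1) * (N : ℤ) = N * b i + N := by ring
        rw [this]
        linarith
      omega
  · rintro rfl i
    show 0 ≤ q i - n i - N * ((q i - n i) / (N : ℤ)) ∧ q i - n i - N * ((q i - n i) / (N : ℤ)) < N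
    have h1 := Int.emod_nonneg (q i - n i) hN'.ne'
    have h2 := Int.emod_lt_of_pos (q i - n i) hN'
    rw [Int.emod_def] at h1 h2
    exact ⟨h1, h2⟩

lemma abs_le_norm (v : E k) (i : Fin k) : |v i| ≤ ‖v‖ := by
  have h := PiLp.norm_apply_le v i
  rwa [Real.norm_eq_abs] at h

lemma norm_le_of (v : E k) {c : ℝ} (hc : 0 ≤ c) (h : ∀ i, |v i| ≤ c) : ‖v‖ ≤ c * k := by
  rw [EuclideanSpace.norm_eq, Real.sqrt_le_iff]
  refine ⟨by positivity, ?_⟩
  calc ∑ i, ‖v i‖ ^ 2 ≤ ∑ _i : Fin k, c ^ 2 := by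
        apply Finset.sum_le_sum
        intro i _
        rw [Real.norm_eq_abs]
        have := h i
        have h0 := abs_nonneg (v i)
        nlinarith
    _ = c ^ 2 * k := by rw [Finset.sum_const, Finset.card_univ, Fintype.card_fin, nsmul_eq_mul, mul_comm]
    _ ≤ (c * k) ^ 2 := by
        rw [mul_pow]
        apply mul_le_mul_of_nonneg_left _ (by positivity)
        rcases Nat.eq_zero_or_pos k with h0 | h0
        · rw [h0]; norm_num
        · have : (1 : ℝ) ≤ k := by exact_mod_cast h0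
          nlinarith

/-- splitting an open set -/
lemma split {U : Set (E k)} (hk : 0 < k) (hU : IsOpen U) (hne : U.Nonempty) :
    ∃ (U1 U2 : Set (E k)) (p : Fin k → ℝ) (r : ℝ), IsOpen U1 ∧ U1.Nonempty ∧ IsOpen U2 ∧
      U2.Nonempty ∧ 0 < r ∧ U1 ⊆ U ∧ U2 ⊆ U ∧ cub p r ⊆ U ∧ Disjoint U1 U2 ∧
      Disjoint U1 (cub p r) ∧ Disjoint U2 (cub p r) := by
  obtain ⟨c, hc⟩ := hne
  obtain ⟨ρ, hρ, hb⟩ := Metric.isOpen_iff.1 hU c hc
  obtain ⟨e, he⟩ : ∃ e : E k, ‖e‖ = 1 := ⟨EuclideanSpace.single ⟨0, hk⟩ 1, by simp⟩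
  have hn : ∀ s : ℝ, ‖s • e‖ = |s| := by
    intro s
    rw [norm_smul, he, mul_one, Real.norm_eq_abs]
  have hd : dist (c + (ρ / 2) • e) c = ρ / 2 := by
    rw [dist_eq_norm, add_sub_cancel_left, hn, abs_of_pos (by positivity)]
  have hd' : dist (c - (ρ / 2) • e) c = ρ / 2 := by
    rw [dist_eq_norm, sub_sub_cancel_left, norm_neg, hn, abs_of_pos (by positivity)]
  have hdd : dist (c - (ρ / 2) • e) (c + (ρ / 2) • e) = ρ := by
    rw [dist_eq_norm]
    have : c - (ρ / 2) • e - (c + (ρ / 2) • e) = (-ρ) • e := by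
      rw [neg_smul]
      have : ρ • e = (ρ / 2) • e + (ρ / 2) • e := by rw [← add_smul]; ring_nf
      rw [this]
      abel
    rw [this, hn, abs_neg, abs_of_pos hρ]
  -- the cube
  have hop : IsOpen {q : Fin k → ℝ | (WithLp.toLp 2 q : E k) ∈ Metric.ball c (ρ / 8)} :=
    Metric.isOpen_ball.preimage (PiLp.continuous_toLp 2 _)
  obtain ⟨r, hr, hrb⟩ := Metric.isOpen_iff.1 hop (WithLp.ofLp c) (by
    show (WithLp.toLp 2 (WithLp.ofLp c) : E k) ∈ Metric.ball c (ρ / 8)
    exact Metric.mem_ball_self (by positivity))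
  have hcub : cub (WithLp.ofLp c) (r / 2) ⊆ Metric.ball c (ρ / 8) := by
    intro x hx
    have h1 : WithLp.ofLp x ∈ Metric.ball (WithLp.ofLp c) r := by
      rw [Metric.mem_ball]
      exact lt_of_le_of_lt hx (by linarith)
    exact hrb h1
  refine ⟨Metric.ball (c - (ρ / 2) • e) (ρ / 4), Metric.ball (c + (ρ / 2) • e) (ρ / 4), WithLp.ofLp c, r / 2,
    Metric.isOpen_ball, Metric.nonempty_ball.2 (by positivity), Metric.isOpen_ball,
    Metric.nonempty_ball.2 (by positivity), by positivity, ?_, ?_, ?_, ?_, ?_, ?_⟩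
  · exact (Metric.ball_subset_ball' (by rw [hd']; linarith)).trans hb
  · exact (Metric.ball_subset_ball' (by rw [hd]; linarith)).trans hb
  · exact (hcub.trans (Metric.ball_subset_ball (by linarith))).trans hb
  · exact Metric.ball_disjoint_ball (by rw [hdd]; linarith)
  · refine Disjoint.mono_right hcub (Metric.ball_disjoint_ball ?_)
    rw [hd']; linarith
  · refine Disjoint.mono_right hcub (Metric.ball_disjoint_ball ?_)
    rw [hd]; linarith

/-- positions of the points and of the blocks -/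
lemma blk_dist {N M : ℕ} (hM : 0 < M) (z : Zk k) :
    ‖((N : ℝ) / M) • (vec z : E k) - (N : ℝ) • vec (blkOf M z)‖ ≤ N * k := by
  apply norm_le_of _ (by positivity)
  intro i
  have hM' : (0 : ℤ) < M := by exact_mod_cast hM
  have hMr : (0 : ℝ) < M := by exact_mod_cast hM
  have h1 := Int.emod_nonneg (z i) hM'.ne'
  have h2 := Int.emod_lt_of_pos (z i) hM'
  have h3 := Int.emod_add_mul_ediv (z i) M
  have e1 : (((N : ℝ) / M) • (vec z : E k) - (N : ℝ) • vec (blkOf M z)) i =
      (N : ℝ) / M * ((z i % (M : ℤ) : ℤ) : ℝ) := by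
    show (N : ℝ) / M * (z i : ℝ) - (N : ℝ) * ((z i / (M : ℤ) : ℤ) : ℝ) = _
    have h4 : (z i : ℝ) = ((z i % (M : ℤ) : ℤ) : ℝ) + M * ((z i / (M : ℤ) : ℤ) : ℝ) := by
      exact_mod_cast h3.symm
    rw [h4]
    field_simp
    ring
  have h1' : (0 : ℝ) ≤ ((z i % (M : ℤ) : ℤ) : ℝ) := by exact_mod_cast h1
  have h2' : ((z i % (M : ℤ) : ℤ) : ℝ) ≤ M := by exact_mod_cast h2.le
  rw [e1, abs_of_nonneg (by positivity)]
  calc (N : ℝ) / M * ((z i % (M : ℤ) : ℤ) : ℝ) ≤ (N : ℝ) / M * M := by gcongr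
    _ = N := by field_simp

lemma wts_blk {X : Type u} [TopologicalSpace X] [AddAction (Zk k) X] {N M : ℕ} (hM : 0 < M)
    {R L : ℝ} {w : X → Zk k → Zk k → ℝ} (hw : Wts (N : ℝ) (R + 2 * (N * k)) L w) :
    Wts ((N : ℝ) / M) R (L + N * k) fun x n z => w x n (blkOf M z) where
  cont := fun n z => hw.cont n _
  nonneg := fun x n z => hw.nonneg x n _
  le_one := fun x n z => hw.le_one x n _
  loc := fun x n z h => by
    have h1 := hw.loc x n _ h
    have h2 := blk_dist (N := N) hM z
    calc ‖((N : ℝ) / M) • (vec z : E k)‖ = ‖(N : ℝ) • vec (blkOf M z) +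
          (((N : ℝ) / M) • (vec z : E k) - (N : ℝ) • vec (blkOf M z))‖ := by congr 1; abel
      _ ≤ _ := (norm_add_le _ _).trans (add_le_add h1 h2)
  sep := fun x n z n' z' hn h h' => by
    have h1 := hw.sep x n _ n' _ hn h h'
    have h2 := blk_dist (N := N) hM z
    have h2' := blk_dist (N := N) hM z'
    have e1 : pos (N : ℝ) n (blkOf M z) - pos (N : ℝ) n' (blkOf M z') =
        (pos ((N : ℝ) / M) n z - pos ((N : ℝ) / M) n' z') -
          (((N : ℝ) / M) • (vec z : E k) - (N : ℝ) • vec (blkOf M z)) +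
          (((N : ℝ) / M) • (vec z' : E k) - (N : ℝ) • vec (blkOf M z')) := by
      unfold pos
      abel
    have h3 : ‖pos (N : ℝ) n (blkOf M z) - pos (N : ℝ) n' (blkOf M z')‖ ≤
        ‖(pos ((N : ℝ) / M) n z - pos ((N : ℝ) / M) n' z')‖ + N * k + N * k := by
      rw [e1]
      exact (norm_add_le _ _).trans (add_le_add ((norm_sub_le _ _).trans (add_le_add le_rfl h2)) h2')
    linarith
  equi := fun q x n z => hw.equi q x n _

/-! ### the function `β` -/

def bet {X : Type u} (w : X → Zk k → Zk k → ℝ) (N K : ℕ) (x : X) (q : Zk k) : ℝ :=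
  ∏ n ∈ Finset.Icc (fun i => q i - (K : ℤ)) (fun i => q i + (K : ℤ)), (1 - w x n (fl N (q - n)))

lemma bet_equi {X : Type u} [AddAction (Zk k) X] {w : X → Zk k → Zk k → ℝ} {N K : ℕ}
    (hw : ∀ (q : Zk k) x n z, w (q +ᵥ x) n z = w x (n + q) z) (p : Zk k) (x : X) (q : Zk k) :
    bet w N K (p +ᵥ x) q = bet w N K x (q + p) := by
  unfold bet
  refine Finset.prod_nbij' (fun n => n + p) (fun n => n - p) ?_ ?_ ?_ ?_ ?_
  · intro n hn
    rw [Finset.mem_Icc] at hn ⊢
    constructor
    · intro i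
      have := hn.1 i
      simp only [Pi.add_apply] at this ⊢
      omega
    · intro i
      have := hn.2 i
      simp only [Pi.add_apply] at this ⊢
      omega
  · intro n hn
    rw [Finset.mem_Icc] at hn ⊢
    constructor
    · intro i
      have := hn.1 i
      simp only [Pi.add_apply, Pi.sub_apply] at this ⊢
      omega
    · intro i
      have := hn.2 i
      simp only [Pi.add_apply, Pi.sub_apply] at this ⊢
      omega
  · intro n _
    exact add_sub_cancel_right n p
  · intro n _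
    exact sub_add_cancel n p
  · intro n _
    rw [hw]
    have : q + p - (n + p) = q - n := by abel
    rw [this]

lemma bet_nonneg {X : Type u} {w : X → Zk k → Zk k → ℝ} {N K : ℕ} (h1 : ∀ x n z, w x n z ≤ 1)
    (x : X) (q : Zk k) : 0 ≤ bet w N K x q :=
  Finset.prod_nonneg fun _ _ => sub_nonneg.2 (h1 _ _ _)

lemma bet_le {X : Type u} {w : X → Zk k → Zk k → ℝ} {N K : ℕ} (h0 : ∀ x n z, 0 ≤ w x n z)
    (h1 : ∀ x n z, w x n z ≤ 1) (x : X) (q : Zk k) : bet w N K x q ≤ 1 :=
  Finset.prod_le_one (fun _ _ => sub_nonneg.2 (h1 _ _ _)) fun n _ => by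
    have := h0 x n (fl N (q - n))
    linarith

lemma bet_pos {X : Type u} [TopologicalSpace X] [AddAction (Zk k) X] {N K : ℕ} {R L : ℝ}
    {w : X → Zk k → Zk k → ℝ} (hN : 0 < N) (hw : Wts (N : ℝ) R L w) (hK : L + N ≤ K) (x : X)
    (q : Zk k) : 0 < bet w N K x q ↔ ∀ n b, inBlk N n b q → w x n b < 1 := by
  constructor
  · intro h n b hb
    by_contra hge
    rw [not_lt] at hge
    have hpos : 0 < w x n b := lt_of_lt_of_le one_pos hge
    have hloc := hw.loc x n b hpos
    have hone : w x n b = 1 := le_antisymm (hw.le_one x n b) hge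
    have hmem : n ∈ Finset.Icc (fun i => q i - (K : ℤ)) (fun i => q i + (K : ℤ)) := by
      have key : ∀ i, |(q i : ℝ) - n i| ≤ K := by
        intro i
        have h1 := (abs_le_norm ((N : ℝ) • (vec b : E k)) i).trans hloc
        have e1 : ((N : ℝ) • (vec b : E k)) i = N * (b i : ℝ) := rfl
        rw [e1] at h1
        obtain ⟨h2, h3⟩ := hb i
        have h2' : (0 : ℝ) ≤ q i - n i - N * b i := by exact_mod_cast h2
        have h3' : (q i : ℝ) - n i - N * b i < N := by exact_mod_cast h3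
        rw [abs_le] at h1 ⊢
        have hN0 : (0 : ℝ) ≤ N := by positivity
        constructor
        · linarith [h1.1]
        · linarith [h1.2]
      rw [Finset.mem_Icc]
      constructor
      · intro i
        have h1 := (abs_le.1 (key i)).2
        have h2 : q i - n i ≤ (K : ℤ) := by exact_mod_cast h1
        show q i - (K : ℤ) ≤ n i
        omega
      · intro i
        have h1 := (abs_le.1 (key i)).1
        have h2 : -(K : ℤ) ≤ q i - n i := by exact_mod_cast h1
        show n i ≤ q i + (K : ℤ)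
        omega
    have h0 : bet w N K x q = 0 := by
      apply Finset.prod_eq_zero hmem
      rw [← (inBlk_iff hN n b q).1 hb, hone, sub_self]
    rw [h0] at h
    exact lt_irrefl _ h
  · intro h
    apply Finset.prod_pos
    intro n _
    exact sub_pos.2 (h n _ ((inBlk_iff hN n _ q).2 rfl))

lemma bet_cont {X : Type u} [TopologicalSpace X] {w : X → Zk k → Zk k → ℝ} {N K : ℕ}
    (hw : ∀ n z, Continuous fun x => w x n z) (q : Zk k) : Continuous fun x => bet w N K x q :=
  continuous_finsetProd _ fun n _ => continuous_const.sub (hw n _)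

/-! ### decoding by the Hilbert matrix -/

lemma decode_aux (hG : P_GEN) {α β : Type} {c1 : α → ℕ} {c2 : β → ℕ} (hc1 : Function.Injective c1)
    (hc2 : Function.Injective c2) (Z : Finset α) (J B : Finset β) (f : β → ℝ)
    (hcard : B.card ≤ Z.card) (hB : B ⊆ J) (h0 : ∀ p ∈ J, p ∉ B → f p = 0)
    (h : ∀ z ∈ Z, ∑ p ∈ J, ((c1 z : ℝ) + c2 p + 1)⁻¹ * f p = 0) : ∀ p ∈ B, f p = 0 := by
  have hvc : ∀ p, Function.extend c2 f 0 (c2 p) = f p := fun p => hc2.extend_apply f 0 p
  have key := hG (Z.map ⟨c1, hc1⟩) (B.map ⟨c2, hc2⟩) (Function.extend c2 f 0)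
    (by simpa using hcard) (by
      intro i hi
      rw [Finset.mem_map] at hi
      obtain ⟨z, hz, rfl⟩ := hi
      rw [Finset.sum_map, ← h z hz, ← Finset.sum_subset hB]
      · apply Finset.sum_congr rfl
        intro p _
        show Function.extend c2 f 0 (c2 p) / ((c1 z : ℝ) + c2 p + 1) = _
        rw [hvc, div_eq_inv_mul]
      · intro p hp hpB
        rw [h0 p hp hpB, mul_zero])
  intro p hp
  rw [← hvc]
  exact key _ (Finset.mem_map_of_mem _ hp)

end Pool.Agent.Run7.h763.RT
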